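import Pool.Agent.Helper34.LL.Defs

/-!
# Project LL, module LD: law of large numbers for a fixed profile
-/

set_option autoImplicit false

namespace Pool.Agent.Helper89.LL

open Pool.Agent.Helper34.LL Pool.Agent.Helper34.SD Pool.Agent.Helper34.PT

private theorem FF_append {x : List (Fin 3)} (U W : List Bool) :
    FF x (U ++ W) = FF x U + FF (ract x U) W := by
  unfold FF
  rw [rsecs_append, bin_append, List.length_append]

private theorem ract_nil (x : List (Fin 3)) : ract x [] = x := by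
  cases x with
  | nil => rfl
  | cons s v => simp [ract, rext, rsec, act_nil]

private theorem FF_nil (x : List (Fin 3)) : FF x [] = 0 := by
  have h := FF_append (x := x) [] []
  rw [ract_nil] at h
  simp only [List.append_nil] at h
  omega

private abbrev Xv (T : ℕ) : Type := List.Vector (Fin 3) (T + 1)

private def mvw {T : ℕ} (x : Xv T) (w : List Bool) : Xv T :=
  ⟨ract x.1 w, by rw [ract_length, x.2]⟩

private def mv {T : ℕ} (x : Xv T) (b : Bool) : Xv T := mvw x [b]

private theorem mvw_nil {T : ℕ} (x : Xv T) : mvw x [] = x := Subtype.ext (ract_nil x.1)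

private theorem mvw_append {T : ℕ} (x : Xv T) (U W : List Bool) :
    mvw x (U ++ W) = mvw (mvw x U) W := Subtype.ext (ract_append x.1 U W)

private theorem mv_inj {T : ℕ} (b : Bool) : Function.Injective (fun x : Xv T => mv x b) := by
  intro x y h
  have h1 : ract x.1 [b] = ract y.1 [b] := congrArg Subtype.val h
  exact Subtype.ext (ract_inj [b] h1)

private noncomputable def pm {T : ℕ} (b : Bool) : Equiv.Perm (Xv T) :=
  Equiv.ofBijective (fun x : Xv T => mv x b) (Finite.injective_iff_bijective.1 (mv_inj b))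

private theorem pm_apply {T : ℕ} (b : Bool) (x : Xv T) : pm b x = mv x b := rfl

private theorem pm_pow {T : ℕ} (x : Xv T) (k : ℕ) : ((pm false) ^ k) x = mvw x (zr k) := by
  induction k with
  | zero => exact (mvw_nil x).symm
  | succ k ih =>
    rw [pow_succ', Equiv.Perm.mul_apply, ih, pm_apply]
    have e : zr (k + 1) = zr k ++ [false] := List.replicate_succ'
    rw [e, mvw_append]
    rfl

private theorem card_Xv (T : ℕ) : Fintype.card (Xv T) = 3 ^ (T + 1) := by
  rw [card_vector, Fintype.card_fin]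

private theorem trans_pm {T : ℕ} (x y : Xv T) : ∃ k : ℕ, ((pm false) ^ k) x = y := by
  have hinj : Function.Injective (fun k : Fin (3 ^ (T + 1)) => mvw x (zr k.1)) := by
    intro i j h
    have h1 : ract x.1 (zr i.1) = ract x.1 (zr j.1) := congrArg Subtype.val h
    have h2 := ract_zr_inj x.1 h1
    rw [x.2] at h2
    exact Fin.ext (Nat.ModEq.eq_of_lt_of_lt h2 i.2 j.2)
  have hbij : Function.Bijective (fun k : Fin (3 ^ (T + 1)) => mvw x (zr k.1)) := by
    rw [Fintype.bijective_iff_injective_and_card]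
    exact ⟨hinj, by rw [card_Xv, Fintype.card_fin]⟩
  obtain ⟨k, hk⟩ := hbij.2 y
  exact ⟨k.1, by rw [pm_pow]; exact hk⟩

private theorem Phi_eq {T : ℕ} (g : Xv T → ℝ) (w : List Bool) : ∀ x : Xv T,
    Phi mv (fun x b => (FF x.1 [b] : ℝ) - 1 + g (mv x b) - g x) x w =
      (FF x.1 w : ℝ) - w.length + g (mvw x w) - g x := by
  induction w with
  | nil =>
    intro x
    rw [FF_nil, mvw_nil]
    simp [Phi]
  | cons b w ih =>
    intro x
    have e1 : FF x.1 (b :: w) = FF x.1 [b] + FF (mv x b).1 w := FF_append (x := x.1) [b] w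
    have e2 : mvw x (b :: w) = mvw (mv x b) w := mvw_append x [b] w
    simp only [Phi]
    rw [ih (mv x b), e1, e2, List.length_cons]
    push_cast
    ring

private theorem fin_len (n : ℕ) : {w : List Bool | w.length = n}.Finite :=
  List.finite_length_eq Bool n

private theorem ncard_len (n : ℕ) : {w : List Bool | w.length = n}.ncard = 2 ^ n := by
  have h : {w : List Bool | w.length = n}.ncard = Nat.card (List.Vector Bool n) := rfl
  rw [h, Nat.card_eq_fintype_card, card_vector, Fintype.card_bool]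

theorem hLD : Stmt_LA → Stmt_LB → Stmt_LC → Stmt_LD := by
  intro hA hB hC T ε hε
  have hsum : ∑ x : Xv T, (((FF x.1 [false] : ℝ) + FF x.1 [true]) / 2 - 1) = 0 := by
    rw [Finset.sum_sub_distrib, ← Finset.sum_div]
    have h1 : ∑ x : Xv T, ((FF x.1 [false] : ℝ) + FF x.1 [true]) = 2 * 3 ^ (T + 1) := by
      have h2 : ∑ x : Xv T, (FF x.1 [false] + FF x.1 [true]) = 2 * 3 ^ (T + 1) := hC T
      exact_mod_cast h2
    rw [h1, Finset.sum_const, Finset.card_univ, card_Xv, nsmul_eq_mul]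
    push_cast
    ring
  obtain ⟨g, hg⟩ := hA (Xv T) (pm false) (pm true)
    (fun x => ((FF x.1 [false] : ℝ) + FF x.1 [true]) / 2 - 1) trans_pm hsum
  obtain ⟨G, hG0, hG⟩ : ∃ G : ℝ, 0 ≤ G ∧ ∀ x, |g x| ≤ G :=
    ⟨∑ x, |g x|, Finset.sum_nonneg fun x _ => abs_nonneg _, fun x =>
      Finset.single_le_sum (f := fun x => |g x|) (fun y _ => abs_nonneg (g y)) (Finset.mem_univ x)⟩
  set ph : Xv T → Bool → ℝ := fun x b => (FF x.1 [b] : ℝ) - 1 + g (mv x b) - g x with hph
  obtain ⟨c, hc0, hc⟩ : ∃ c : ℝ, 0 ≤ c ∧ ∀ x b, |ph x b| ≤ c := by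
    refine ⟨∑ p : Xv T × Bool, |ph p.1 p.2|, Finset.sum_nonneg fun x _ => abs_nonneg _, ?_⟩
    intro x b
    exact Finset.single_le_sum (f := fun p : Xv T × Bool => |ph p.1 p.2|)
      (fun y _ => abs_nonneg _) (Finset.mem_univ (x, b))
  have hph0 : ∀ x, ph x false + ph x true = 0 := by
    intro x
    have h1 := hg x
    have h2 : pm false x = mv x false := rfl
    have h3 : pm true x = mv x true := rfl
    rw [h2, h3] at h1
    simp only [hph]
    linear_combination 2 * h1
  refine ⟨4 * c ^ 2 / ε ^ 2 + 4 * G / ε + 1, ?_⟩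
  intro n hn x hx
  have hn0 : (0 : ℝ) < n := by exact_mod_cast hn
  have hA0 : 0 ≤ 4 * c ^ 2 / ε ^ 2 := by positivity
  have hB0 : 0 ≤ 4 * G / ε := by positivity
  have h2n : (0 : ℝ) < 2 ^ n := by positivity
  set S : Set (List Bool) := {w : List Bool | w.length = n ∧
      ∃ p ≤ n, ε * n < |(FF x (w.take p) : ℝ) - p|} with hS
  by_cases hcase : 4 * G / ε ≤ n
  · have hlb := hB (Xv T) mv ph c hc0 hph0 hc n (ε * n / 2) (by positivity) ⟨x, hx⟩
    have hsub : S ⊆ {w : List Bool | w.length = n ∧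
        ∃ p ≤ n, ε * n / 2 ≤ |Phi mv ph ⟨x, hx⟩ (w.take p)|} := by
      rintro w ⟨hw, p, hp, hw2⟩
      refine ⟨hw, p, hp, ?_⟩
      have e := Phi_eq g (w.take p) (⟨x, hx⟩ : Xv T)
      have hl : (w.take p).length = p := by rw [List.length_take, hw]; omega
      rw [hl] at e
      rw [hph, e]
      have h1 := abs_le.1 (hG (mvw (⟨x, hx⟩ : Xv T) (w.take p)))
      have h2 := abs_le.1 (hG (⟨x, hx⟩ : Xv T))
      have h3 : 4 * G ≤ n * ε := (div_le_iff₀ hε).1 hcase
      show ε * n / 2 ≤ |(FF x (w.take p) : ℝ) - p + g (mvw (⟨x, hx⟩ : Xv T) (w.take p)) -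
        g (⟨x, hx⟩ : Xv T)|
      rcases lt_abs.1 hw2 with h4 | h4
      · refine le_trans ?_ (le_abs_self _)
        linarith
      · refine le_trans ?_ (neg_le_abs _)
        linarith
    have hfin : {w : List Bool | w.length = n ∧
        ∃ p ≤ n, ε * n / 2 ≤ |Phi mv ph ⟨x, hx⟩ (w.take p)|}.Finite :=
      (fin_len n).subset fun w hw => hw.1
    have hle : (S.ncard : ℝ) ≤ ({w : List Bool | w.length = n ∧
        ∃ p ≤ n, ε * n / 2 ≤ |Phi mv ph ⟨x, hx⟩ (w.take p)|}.ncard : ℝ) := by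
      exact_mod_cast Set.ncard_le_ncard hsub hfin
    have hkey : (S.ncard : ℝ) * (ε * n / 2) ^ 2 ≤ 2 ^ n * (n * c ^ 2) :=
      le_trans (mul_le_mul_of_nonneg_right hle (by positivity)) hlb
    have h5 : (S.ncard : ℝ) ≤ 4 * c ^ 2 / ε ^ 2 * 2 ^ n / n := by
      rw [le_div_iff₀ hn0]
      have h6 : (S.ncard : ℝ) * n * (ε ^ 2 * n / 4) ≤ 4 * c ^ 2 / ε ^ 2 * 2 ^ n * (ε ^ 2 * n / 4) := by
        have e7 : 4 * c ^ 2 / ε ^ 2 * 2 ^ n * (ε ^ 2 * n / 4) = 2 ^ n * (n * c ^ 2) := by
          field_simp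
        rw [e7]
        calc (S.ncard : ℝ) * n * (ε ^ 2 * n / 4) = (S.ncard : ℝ) * (ε * n / 2) ^ 2 := by ring
          _ ≤ _ := hkey
      exact le_of_mul_le_mul_right h6 (by positivity)
    refine h5.trans ?_
    rw [div_le_div_iff_of_pos_right hn0]
    exact mul_le_mul_of_nonneg_right (by linarith) h2n.le
  · have h1 : (S.ncard : ℝ) ≤ 2 ^ n := by
      have h2 : S.ncard ≤ 2 ^ n := by
        rw [← ncard_len n]
        exact Set.ncard_le_ncard (fun w hw => hw.1) (fin_len n)
      exact_mod_cast h2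
    refine h1.trans ?_
    rw [le_div_iff₀ hn0, mul_comm]
    exact mul_le_mul_of_nonneg_right (by linarith [not_le.1 hcase]) h2n.le

end Pool.Agent.Helper89.LL
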